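import Pool.Agent.Y865.RF.PL
import Pool.Agent.Y655.RF.Deg

/-!
Graphs without weak `K₅` with at most eleven vertices: the chromatic polynomial is positive on
`(4, ∞)`.
-/

set_option autoImplicit false

namespace Pool.Agent.Y406.SP

open Finset Pool.Agent.H207R2.BL Pool.Agent.Y865.RF
open Pool.Agent.Y655.RF (EE NN mem_EE mem_NN card_EE mader)

/-- the class -/
def CC (V : Type) (G : SimpleGraph V) : Prop := Finite V ∧ ¬ WK V G ∧ Nat.card V ≤ 11

lemma cc_closed : MinorClosed CC := by
  refine ⟨?_, ?_, ?_⟩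
  · rintro V G H hHG ⟨h1, h2, h3⟩
    exact ⟨h1, mc.edge V G H hHG h2, h3⟩
  · rintro V G v ⟨h1, h2, h3⟩
    exact ⟨inferInstance, mc.vertex V G v h2, (Finite.card_subtype_le _).trans h3⟩
  · rintro V G u v huv ⟨h1, h2, h3⟩
    exact ⟨inferInstance, mc.contr V G u v huv h2, (Finite.card_subtype_le _).trans h3⟩

lemma cc_deg (V : Type) [Finite V] [Nonempty V] (G : SimpleGraph V) (hG : CC V G) :
    ∃ v, (G.neighborSet v).ncard ≤ 4 := by
  classical
  obtain ⟨-, hW, h11⟩ := hG
  by_contra hcon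
  push Not at hcon
  have : Fintype V := Fintype.ofFinite V
  apply hW
  have hN : ∀ v, 5 ≤ (NN G v).card := by
    intro v
    have h1 := hcon v
    have h2 : (G.neighborSet v) = ((NN G v : Finset V) : Set V) := by
      ext y
      rw [SimpleGraph.mem_neighborSet, mem_coe, mem_NN]
    rw [h2, Set.ncard_coe_finset] at h1
    exact h1
  have hIn : Pool.Agent.Y655.RF.In (univ : Finset V) G := fun x y _ => ⟨mem_univ _, mem_univ _⟩
  have h1 := card_EE hIn
  have h2 : ∑ _x ∈ (univ : Finset V), 5 ≤ ∑ x ∈ (univ : Finset V), (NN G x).card :=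
    sum_le_sum fun x _ => hN x
  rw [sum_const, smul_eq_mul] at h2
  have hev : 2 ∣ ∑ x ∈ (univ : Finset V), (NN G x).card := by
    have h3 : ∀ x, (NN G x).card = G.degree x := by
      intro x
      rw [← SimpleGraph.card_neighborFinset_eq_degree]
      congr 1
      ext y
      rw [mem_NN, SimpleGraph.mem_neighborFinset]
    rw [sum_congr rfl fun x _ => h3 x, SimpleGraph.sum_degrees_eq_twice_card_edges]
    exact dvd_mul_right _ _
  rw [Nat.card_eq_fintype_card, ← card_univ] at h11
  obtain ⟨v⟩ := ‹Nonempty V›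
  have h3 : 6 ≤ (univ : Finset V).card := by
    have h4 : insert v (NN G v) ⊆ (univ : Finset V) := subset_univ _
    have h5 := card_le_card h4
    rw [card_insert_of_notMem (fun h => (mem_NN.1 h).ne rfl)] at h5
    have := hN v
    omega
  obtain ⟨x, A, k1, k2, -⟩ := mader _ (univ : Finset V) G rfl hIn (by omega) (by omega)
  exact ⟨x, A, k1, k2⟩

theorem small_pos (V : Type) [Finite V] (G : SimpleGraph V) (hG : ¬ Pool.Agent.Y865.RF.WK V G)
    (hc : Nat.card V ≤ 11) (q : ℝ) (hq : 4 < q) : 0 < (Pool.Agent.H207R2.BL.chr G).eval q :=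
  minor_pos CC cc_closed 4 cc_deg q (by exact_mod_cast hq) G ⟨inferInstance, hG, hc⟩

end Pool.Agent.Y406.SP
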